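import Pool.Agent.Helper41.LD2.Defs
import Pool.Agent.Helper34.LD.WA

/-!
# Project LD2, block WA2: the martingale for a general sequence of functions
-/

set_option autoImplicit false

namespace Pool.Agent.Helper34.LD2

open Set MeasureTheory Filter Topology
open Pool.Agent.Helper41.LD (av var ind haar idx)
open Pool.Agent.Helper41.LD2
open Pool.Agent.Helper34.LD (measurable_haar haar_abs_le ii_of_bdd inv_lt_one' geo_sum ind_congr av_abs_le)

variable {U : ℕ → ℝ → ℝ} {β : ℝ}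

theorem ii_haar_U (hU : ∀ j, Measurable (U j)) (k i j : ℕ) (a b : ℝ) :
    IntervalIntegrable (fun x => haar k i (U j x)) volume a b :=
  ii_of_bdd ((measurable_haar k i).comp (hU j)) (fun _ => haar_abs_le k i _) a b

theorem A_le_one (hU : ∀ j, Measurable (U j)) (k i j : ℕ) (a : ℝ) {ℓ : ℝ} (hℓ : 0 < ℓ) : |A U k i j a ℓ| ≤ 1 := by
  have _ := hU
  exact av_abs_le (fun _ => haar_abs_le k i _) a hℓ

theorem A_le {n m : ℕ} {a ℓ : ℝ} (hw : Wd U β n m a ℓ) (k i : ℕ) {j : ℕ} (hj : n ≤ j) :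
    |A U k i j a ℓ| ≤ (1 / 2) ^ k * β⁻¹ ^ (j - n) := by
  unfold A av
  rw [abs_div, abs_of_pos hw.pos, div_le_iff₀ hw.pos]
  exact hw.haar_le k i j hj

theorem summable_A (hβ : 1 < β) {n m : ℕ} {a ℓ : ℝ} (hw : Wd U β n m a ℓ) (k i : ℕ) : Summable fun j => A U k i j a ℓ := by
  obtain ⟨h0, h1⟩ := inv_lt_one' hβ
  rw [← summable_nat_add_iff n]
  refine Summable.of_norm_bounded (g := fun j => (1 / 2) ^ k * β⁻¹ ^ j) ((summable_geometric_of_lt_one h0.le h1).mul_left _) fun j => ?_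
  have h2 := A_le hw k i (j := j + n) (by omega)
  rw [Nat.add_sub_cancel] at h2
  rw [Real.norm_eq_abs]
  exact h2

theorem M_tail (hβ : 1 < β) {n m : ℕ} {a ℓ : ℝ} (hw : Wd U β n m a ℓ) (k i : ℕ) {m' : ℕ} (hm : n ≤ m') :
    |M U k i a ℓ - ∑ j ∈ Finset.range m', A U k i j a ℓ| ≤ (1 / 2) ^ k * β⁻¹ ^ (m' - n) * (β / (β - 1)) := by
  obtain ⟨h0, h1⟩ := inv_lt_one' hβ
  have hs := summable_A hβ hw k i
  have h2 : M U k i a ℓ - ∑ j ∈ Finset.range m', A U k i j a ℓ = ∑' j, A U k i (j + m') a ℓ := by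
    unfold M
    rw [← hs.sum_add_tsum_nat_add m']
    ring
  rw [h2, ← geo_sum hβ, ← Real.norm_eq_abs]
  have h3 : HasSum (fun j : ℕ => (1 / 2) ^ k * β⁻¹ ^ (m' - n) * β⁻¹ ^ j) ((1 / 2) ^ k * β⁻¹ ^ (m' - n) * (1 - β⁻¹)⁻¹) :=
    (hasSum_geometric_of_lt_one h0.le h1).mul_left _
  refine tsum_of_norm_bounded h3 fun j => ?_
  rw [Real.norm_eq_abs]
  refine (A_le hw k i (j := j + m') (by omega)).trans (le_of_eq ?_)
  rw [mul_assoc, ← pow_add]
  congr 2
  omega

private theorem half_pow_mul34 (hβ : 1 < β) (k : ℕ) : (1 / 2 : ℝ) ^ k * (β / (β - 1)) ≤ 1 * (β / (β - 1)) := by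
  refine mul_le_mul_of_nonneg_right (pow_le_one₀ (by norm_num) (by norm_num)) ?_
  exact div_nonneg (by linarith) (by linarith)

theorem M_le (hβ : 1 < β) {n m : ℕ} {a ℓ : ℝ} (hw : Wd U β n m a ℓ) (k i : ℕ) : |M U k i a ℓ| ≤ n + β / (β - 1) := by
  have h1 := M_tail hβ hw k i (le_refl n)
  rw [Nat.sub_self, pow_zero, mul_one] at h1
  have h2 : |∑ j ∈ Finset.range n, A U k i j a ℓ| ≤ n := by
    refine (Finset.abs_sum_le_sum_abs _ _).trans ((Finset.sum_le_sum fun j _ => A_le_one hw.meas k i j a hw.pos).trans (le_of_eq ?_))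
    simp
  have h3 := half_pow_mul34 hβ k
  have h4 : M U k i a ℓ = (M U k i a ℓ - ∑ j ∈ Finset.range n, A U k i j a ℓ) + ∑ j ∈ Finset.range n, A U k i j a ℓ := by ring
  rw [h4]
  refine (abs_add_le _ _).trans ?_
  linarith

theorem A_children (hU : ∀ j, Measurable (U j)) (k i j : ℕ) (a : ℝ) {ℓ : ℝ} (hℓ : 0 < ℓ) {B : ℕ} (hB : 1 ≤ B) :
    ∑ b ∈ Finset.range B, A U k i j (a + b * (ℓ / B)) (ℓ / B) = B * A U k i j a ℓ := by
  have hB0 : (0 : ℝ) < B := by exact_mod_cast hB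
  unfold A av
  rw [← Finset.sum_div]
  have h1 := intervalIntegral.sum_integral_adjacent_intervals (μ := volume) (f := fun x => haar k i (U j x)) (a := fun b : ℕ => a + b * (ℓ / B)) (n := B)
    fun b _ => ii_haar_U hU k i j _ _
  have h2 : ∑ b ∈ Finset.range B, ∫ x in (a + b * (ℓ / B))..(a + b * (ℓ / B) + ℓ / B), haar k i (U j x) =
      ∫ x in a..(a + ℓ), haar k i (U j x) := by
    have h3 : ∀ b : ℕ, a + (b : ℝ) * (ℓ / B) + ℓ / B = a + ((b + 1 : ℕ) : ℝ) * (ℓ / B) := by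
      intro b
      push_cast
      ring
    simp_rw [h3]
    rw [h1]
    congr 1
    · simp
    · field_simp
  rw [h2]
  field_simp

theorem M_children (hβ : 1 < β) {n m n' m' : ℕ} {a ℓ : ℝ} (hw : Wd U β n m a ℓ) {B : ℕ} (hB : 1 ≤ B)
    (hw' : ∀ b < B, Wd U β n' m' (a + b * (ℓ / B)) (ℓ / B)) (k i : ℕ) :
    ∑ b ∈ Finset.range B, M U k i (a + b * (ℓ / B)) (ℓ / B) = B * M U k i a ℓ := by
  unfold M
  rw [← Summable.tsum_finsetSum fun b hb => summable_A hβ (hw' b (Finset.mem_range.1 hb)) k i, ← tsum_mul_left]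
  exact tsum_congr fun j => A_children hw.meas k i j a hw.pos hB

theorem haar_const {n r K : ℕ} {a ℓ : ℝ} (h : NB U n r K a ℓ) {k : ℕ} (hk : k < K) (i : ℕ) {j : ℕ} (hj : j + r < n)
    {x : ℝ} (hx : x ∈ Icc a (a + ℓ)) : haar k i (U j x) = haar k i (U j a) := by
  have h1 := h j hj x hx
  unfold haar
  rw [ind_congr (show k + 1 ≤ K by omega) h1, ind_congr (show k + 1 ≤ K by omega) h1]

theorem A_const {n r K : ℕ} {a ℓ : ℝ} (h : NB U n r K a ℓ) {k : ℕ} (hk : k < K) (i : ℕ) {j : ℕ} (hj : j + r < n)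
    {a' ℓ' : ℝ} (ha : a ≤ a') (hℓ' : 0 < ℓ') (he : a' + ℓ' ≤ a + ℓ) : A U k i j a' ℓ' = haar k i (U j a) := by
  unfold A av
  have h1 : ∫ x in a'..(a' + ℓ'), haar k i (U j x) = ∫ _x in a'..(a' + ℓ'), haar k i (U j a) := by
    refine intervalIntegral.integral_congr fun x hx => ?_
    rw [uIcc_of_le (by linarith)] at hx
    exact haar_const h hk i hj ⟨ha.trans hx.1, hx.2.trans he⟩
  rw [h1, intervalIntegral.integral_const, add_sub_cancel_left, smul_eq_mul]
  field_simp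

theorem sum_sub_M (hβ : 1 < β) {n m r K : ℕ} {a ℓ : ℝ} (hw : Wd U β n m a ℓ) (h : NB U n r K a ℓ) {k : ℕ}
    (hk : k < K) (i : ℕ) {x : ℝ} (hx : x ∈ Icc a (a + ℓ)) :
    |∑ j ∈ Finset.range n, haar k i (U j x) - M U k i a ℓ| ≤ 2 * r + β / (β - 1) := by
  have hℓ := hw.pos
  have h1 := M_tail hβ hw k i (le_refl n)
  rw [Nat.sub_self, pow_zero, mul_one] at h1
  have h3 := half_pow_mul34 hβ k
  have h4 : |∑ j ∈ Finset.range n, (haar k i (U j x) - A U k i j a ℓ)| ≤ 2 * r := by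
    refine (Finset.abs_sum_le_sum_abs _ _).trans ?_
    have h5 : ∀ j ∈ Finset.range n, |haar k i (U j x) - A U k i j a ℓ| ≤ if n ≤ j + r then 2 else 0 := by
      intro j _
      by_cases hj : n ≤ j + r
      · rw [if_pos hj]
        refine (abs_sub _ _).trans ?_
        have h6 := haar_abs_le k i (U j x)
        have h7 := A_le_one hw.meas k i j a hℓ
        linarith
      · rw [if_neg hj, haar_const h hk i (by omega) hx, A_const h hk i (by omega) le_rfl hℓ le_rfl, sub_self, abs_zero]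
    refine (Finset.sum_le_sum h5).trans ?_
    rw [← Finset.sum_filter, Finset.sum_const, nsmul_eq_mul]
    have h6 : ((Finset.range n).filter fun j => n ≤ j + r).card ≤ r := by
      have h7 : (Finset.range n).filter (fun j => n ≤ j + r) ⊆ Finset.Ico (n - r) n := by
        intro j hj
        rw [Finset.mem_filter, Finset.mem_range] at hj
        rw [Finset.mem_Ico]
        omega
      refine (Finset.card_le_card h7).trans ?_
      rw [Nat.card_Ico]
      omega
    have h8 : (((Finset.range n).filter fun j => n ≤ j + r).card : ℝ) ≤ r := by exact_mod_cast h6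
    linarith
  have h5 : ∑ j ∈ Finset.range n, haar k i (U j x) - M U k i a ℓ =
      ∑ j ∈ Finset.range n, (haar k i (U j x) - A U k i j a ℓ) - (M U k i a ℓ - ∑ j ∈ Finset.range n, A U k i j a ℓ) := by
    rw [Finset.sum_sub_distrib]
    ring
  rw [h5]
  refine (abs_sub _ _).trans ?_
  linarith

end Pool.Agent.Helper34.LD2
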